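import Mathlib
import Pool.Agent.Run7.h643.IS.Logs
import Pool.Agent.Y921.FE.Win
import Pool.Agent.Y921.FE.Mat

/-!
# The four exponentials conjecture for infinite sets of primes

Let `V` be a finite dimensional `ℚ`-space of real numbers (for instance `0`, or the logarithms of the rational numbers
composed of given primes).

* There is an infinite set `B` of primes, which contains arbitrarily long sequences of consecutive primes, such that every
  real `2 × 2` matrix with `ℚ`-linearly independent rows, `ℚ`-linearly independent columns and entries in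
  `V + ∑_(p ∈ B) ℚ log p`, not all in `V`, is nonsingular. For `V = 0`: the four exponentials conjecture holds for all
  positive rational numbers (of any height, and composed of any number of primes) in the group generated by `B`. For
  `V = ℚ log c_1 + ⋯ + ℚ log c_q` with given positive rational numbers `c_i`: the four exponentials conjecture for the group
  generated by `B` and the `c_i` follows from that for the group generated by the `c_i`.
* More generally let numbers `m` and `r_0, r_1, …` be given. There are numbers `E_l`, `L_l` and infinite sets `M_l`, which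
  depend only on them, such that for all `N_l ≥ (L_l + 2) ^ E_l` in `M_l` and all `V` of dimension at most `m` there are
  `r_l` consecutive primes in `(N_l, N_l + L_l]` for every `l = 0, 1, …` such that the set `B` of all these primes has this
  property.

The starting results of this problem are about groups with a bounded number of generators in one short window
(`WindowGroups`), in short intervals or of a special form, or about almost all tuples.

The proof chooses the runs one after the other, and applies the starting theorem on windows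
(`Pool.Agent.Y921.FE.window_rat`) to the space spanned by `V` and the logarithms of the primes chosen before, the exceptional
integers of the windows being avoided by consecutive primes by the theorem of Maynard and Tao
(`Pool.Agent.H362R2.CM.quarter`).
-/

set_option autoImplicit false

namespace Pool.Agent.Results.MP_bbc1fa_nt.InfiniteSetsOfPrimes

open Module

/-- **The four exponentials conjecture for `V` and the logarithms of the elements of `B`, relative to `V`**: every real
`2 × 2` matrix with `ℚ`-linearly independent rows, `ℚ`-linearly independent columns and entries in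
`V + ∑_(p ∈ B) ℚ log p`, not all in `V`, is nonsingular. -/
def FourExponentials (V : Submodule ℚ ℝ) (B : Set ℕ) : Prop :=
  ∀ M : Matrix (Fin 2) (Fin 2) ℝ,
    (∀ i j, M i j ∈ V ⊔ Submodule.span ℚ ((fun p : ℕ => Real.log p) '' B)) → (∃ i j, M i j ∉ V) →
    LinearIndependent ℚ (fun i : Fin 2 => fun j : Fin 2 => M i j) →
    LinearIndependent ℚ (fun j : Fin 2 => fun i : Fin 2 => M i j) → M.det ≠ 0

/-- the set of the `r` consecutive primes number `k, …, k + r - 1` -/
noncomputable def run (k r : ℕ) : Finset ℕ := (Finset.range r).image fun i => Nat.nth Nat.Prime (k + i)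

theorem mem_run {k r p : ℕ} : p ∈ run k r ↔ ∃ i < r, p = Nat.nth Nat.Prime (k + i) := by
  rw [run, Finset.mem_image]
  constructor
  · rintro ⟨i, hi, rfl⟩
    exact ⟨i, Finset.mem_range.1 hi, rfl⟩
  · rintro ⟨i, hi, rfl⟩
    exact ⟨i, Finset.mem_range.2 hi, rfl⟩

/-- the logarithms of the primes of a run -/
noncomputable def lg (k r : ℕ) : Fin r → ℝ := fun i => Real.log (Nat.nth Nat.Prime (k + i))

/-- the space spanned by `V` and the logarithms of the primes of the runs before the run number `J` -/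
noncomputable def W (V : Submodule ℚ ℝ) (r a : ℕ → ℕ) : ℕ → Submodule ℚ ℝ
  | 0 => V
  | J + 1 => W V r a J ⊔ Submodule.span ℚ (Set.range (lg (a J) (r J)))

theorem W_congr (V : Submodule ℚ ℝ) (r : ℕ → ℕ) {a a' : ℕ → ℕ} : ∀ J : ℕ, (∀ i, i < J → a i = a' i) →
    W V r a J = W V r a' J
  | 0, _ => rfl
  | J + 1, h => by
    rw [W, W, W_congr V r J fun i hi => h i (by omega), h J (by omega)]

theorem W_fin (V : Submodule ℚ ℝ) (hV : Module.Finite ℚ V) (r a : ℕ → ℕ) : ∀ J : ℕ, Module.Finite ℚ (W V r a J)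
  | 0 => hV
  | J + 1 => by
    have h1 := W_fin V hV r a J
    have h2 : Module.Finite ℚ (Submodule.span ℚ (Set.range (lg (a J) (r J)))) :=
      FiniteDimensional.span_of_finite ℚ (Set.finite_range _)
    rw [W]
    exact Submodule.finite_sup _ _

theorem W_rank (V : Submodule ℚ ℝ) (hV : Module.Finite ℚ V) (r a : ℕ → ℕ) (m : ℕ) (hm : finrank ℚ V ≤ m) :
    ∀ J : ℕ, finrank ℚ (W V r a J) ≤ m + ∑ i ∈ Finset.range J, r i
  | 0 => by
    rw [Finset.sum_range_zero, add_zero]
    exact hm
  | J + 1 => by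
    have h1 := W_fin V hV r a J
    have h2 : Module.Finite ℚ (Submodule.span ℚ (Set.range (lg (a J) (r J)))) :=
      FiniteDimensional.span_of_finite ℚ (Set.finite_range _)
    have h3 := W_rank V hV r a m hm J
    have h4 : finrank ℚ (Submodule.span ℚ (Set.range (lg (a J) (r J)))) ≤ r J := by
      have h5 := finrank_range_le_card (R := ℚ) (lg (a J) (r J))
      rw [Fintype.card_fin] at h5
      exact h5
    rw [W, Finset.sum_range_succ]
    have h6 := Submodule.finrank_add_le_finrank_add_finrank (W V r a J)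
      (Submodule.span ℚ (Set.range (lg (a J) (r J))))
    omega

/-- one run -/
theorem good_run (r e : ℕ) : ∃ (E L : ℕ) (M : Set ℕ), M.Infinite ∧ ∀ N ∈ M, (L + 2) ^ E ≤ N →
    ∀ V : Submodule ℚ ℝ, Module.Finite ℚ V → finrank ℚ V ≤ e →
    ∃ k : ℕ, (∀ i < r, N < Nat.nth Nat.Prime (k + i) ∧ Nat.nth Nat.Prime (k + i) ≤ N + L) ∧
      Pool.Agent.Y921.FE.Good V (lg k r) := by
  classical
  obtain ⟨E, hE⟩ := Pool.Agent.Y921.FE.window_rat r e
  obtain ⟨L, M, hM, hL⟩ := Pool.Agent.Run7.h643.IS.run_set r (e + 1)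
  refine ⟨E, L, M, hM, fun N hN hNE V hV hVe => ?_⟩
  obtain ⟨S, hS, h⟩ := hE L N hNE V hV hVe
  obtain ⟨k, hk⟩ := hL N hN (S.image fun β : ℚ => (β + (N : ℚ)).num.toNat) (Finset.card_image_le.trans hS)
  refine ⟨k, fun i hi => ⟨(hk i hi).1, (hk i hi).2.1⟩, ?_⟩
  have hcast : ∀ i : Fin r, ((Nat.nth Nat.Prime (k + i) : ℚ) - N) =
      ((Nat.nth Nat.Prime (k + i) - N : ℕ) : ℚ) := by
    intro i
    rw [Nat.cast_sub (hk i i.2).1.le]
  have hg := h (fun i => (Nat.nth Nat.Prime (k + i) : ℚ) - N) (fun i i' hii => by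
      have h1 : (Nat.nth Nat.Prime (k + i) : ℚ) = Nat.nth Nat.Prime (k + i') := sub_left_injective hii
      have h2 : Nat.nth Nat.Prime (k + i) = Nat.nth Nat.Prime (k + i') := by exact_mod_cast h1
      have h3 := Nat.nth_injective Nat.infinite_setOfPred_prime h2
      exact Fin.ext (by omega)) (fun i => by
      obtain ⟨h1, h2, h3⟩ := hk i i.2
      refine ⟨fun h4 => h3 (Finset.mem_image.2 ⟨_, h4, ?_⟩), ?_, ?_, ?_⟩
      · have h5 : ((Nat.nth Nat.Prime (k + i) : ℚ) - N) + N = ((Nat.nth Nat.Prime (k + i) : ℕ) : ℚ) := by ring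
        rw [h5, Rat.num_natCast, Int.toNat_natCast]
      · rw [sub_ne_zero]
        exact_mod_cast h1.ne'
      · rw [hcast, Rat.num_natCast]
        rw [abs_of_nonneg (by positivity)]
        exact_mod_cast (by omega : Nat.nth Nat.Prime (k + i) - N ≤ L)
      · rw [hcast, Rat.den_natCast]
        rcases Nat.eq_zero_or_pos L with hL0 | hL0
        · omega
        · exact hL0)
  have hfun : (fun i : Fin r => Real.log (N + (((Nat.nth Nat.Prime (k + i) : ℚ) - N : ℚ) : ℝ))) = lg k r := by
    funext i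
    unfold lg
    congr 1
    push_cast
    ring
  rw [hfun] at hg
  exact hg

/-- runs of consecutive primes -/
theorem runs (m : ℕ) (r : ℕ → ℕ) : ∃ (E L : ℕ → ℕ) (M : ℕ → Set ℕ), (∀ l, (M l).Infinite) ∧ ∀ N : ℕ → ℕ,
    (∀ l, N l ∈ M l ∧ (L l + 2) ^ E l ≤ N l) → ∀ V : Submodule ℚ ℝ, Module.Finite ℚ V → finrank ℚ V ≤ m →
    ∃ k : ℕ → ℕ, (∀ l, ∀ p ∈ run (k l) (r l), N l < p ∧ p ≤ N l + L l) ∧
      FourExponentials V {p | ∃ l, p ∈ run (k l) (r l)} := by
  classical
  choose E L M hM h using fun J : ℕ => good_run (r J) (m + ∑ i ∈ Finset.range J, r i)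
  refine ⟨E, L, M, hM, fun N hN V hV hVm => ?_⟩
  obtain ⟨k, hk⟩ := Pool.Agent.Run7.h643.IS.exists_seq (α := ℕ)
    (fun J a b => (∀ i < r J, N J < Nat.nth Nat.Prime (b + i) ∧ Nat.nth Nat.Prime (b + i) ≤ N J + L J) ∧
      Pool.Agent.Y921.FE.Good (W V r a J) (lg b (r J))) (by
    intro J a a' b haa' hP
    rw [← W_congr V r J haa']
    exact hP) (fun J a => h J (N J) (hN J).1 (hN J).2 (W V r a J) (W_fin V hV r a J) (W_rank V hV r a m hVm J))
  refine ⟨k, fun l p hp => ?_, fun A hA hne hrow hcol => ?_⟩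
  · obtain ⟨i, hi, rfl⟩ := mem_run.1 hp
    exact (hk l).1 i hi
  have hmono : Monotone (W V r k) := monotone_nat_of_le_succ fun J => by
    rw [W]
    exact le_sup_left
  have hle : V ⊔ Submodule.span ℚ ((fun p : ℕ => Real.log p) '' {p | ∃ l, p ∈ run (k l) (r l)}) ≤
      ⨆ J, W V r k J := by
    refine sup_le ?_ (Submodule.span_le.2 ?_)
    · exact le_iSup (W V r k) 0
    · rintro _ ⟨p, ⟨l, hl⟩, rfl⟩
      obtain ⟨i, hi, rfl⟩ := mem_run.1 hl
      refine (le_iSup (W V r k) (l + 1)) ?_
      rw [W]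
      exact Submodule.mem_sup_right (Submodule.subset_span ⟨⟨i, hi⟩, rfl⟩)
  have hex : ∀ i j, ∃ J, A i j ∈ W V r k J := fun i j =>
    (Submodule.mem_iSup_of_directed _ hmono.directed_le).1 (hle (hA i j))
  choose f hf using hex
  have hall : ∀ i j, A i j ∈ W V r k (∑ i, ∑ j, f i j) := by
    intro i j
    refine hmono ?_ (hf i j)
    exact (Finset.single_le_sum (f := fun j => f i j) (fun _ _ => Nat.zero_le _) (Finset.mem_univ j)).trans
      (Finset.single_le_sum (f := fun i => ∑ j, f i j) (fun _ _ => Nat.zero_le _) (Finset.mem_univ i))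
  have hmain : ∀ J : ℕ, (∀ i j, A i j ∈ W V r k J) → A.det ≠ 0 := by
    intro J
    induction J with
    | zero =>
      intro h0
      obtain ⟨i, j, hij⟩ := hne
      exact absurd (h0 i j) hij
    | succ J ih =>
      intro h1
      by_cases h2 : ∀ i j, A i j ∈ W V r k J
      · exact ih h2
      · push Not at h2
        exact (hk J).2.det_ne_zero A (by simpa only [W] using h1) h2 hrow hcol
  exact hmain _ hall

/-- **Main theorem.** -/
theorem result :
    (∀ V : Submodule ℚ ℝ, Module.Finite ℚ V → ∃ B : Set ℕ, (∀ p ∈ B, p.Prime) ∧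
      (∀ r : ℕ, ∃ k : ℕ, ∀ i < r, Nat.nth Nat.Prime (k + i) ∈ B) ∧ FourExponentials V B) ∧
    (∀ (m : ℕ) (r : ℕ → ℕ), ∃ (E L : ℕ → ℕ) (M : ℕ → Set ℕ), (∀ l, (M l).Infinite) ∧ ∀ N : ℕ → ℕ,
      (∀ l, N l ∈ M l ∧ (L l + 2) ^ E l ≤ N l) → ∀ V : Submodule ℚ ℝ, Module.Finite ℚ V → finrank ℚ V ≤ m →
      ∃ k : ℕ → ℕ, (∀ l, ∀ p ∈ run (k l) (r l), N l < p ∧ p ≤ N l + L l) ∧
        FourExponentials V {p | ∃ l, p ∈ run (k l) (r l)}) := by
  classical
  refine ⟨fun V hV => ?_, runs⟩
  obtain ⟨E, L, M, hM, h⟩ := runs (finrank ℚ V) fun l => l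
  have hN : ∀ l, ∃ N, N ∈ M l ∧ (L l + 2) ^ E l ≤ N := fun l => by
    obtain ⟨N, h1, h2⟩ := (hM l).exists_gt ((L l + 2) ^ E l)
    exact ⟨N, h1, h2.le⟩
  choose N hN using hN
  obtain ⟨k, hk1, hk2⟩ := h N hN V hV le_rfl
  refine ⟨{p | ∃ l, p ∈ run (k l) l}, ?_, fun r => ⟨k r, fun i hi => ⟨r, mem_run.2 ⟨i, hi, rfl⟩⟩⟩, hk2⟩
  rintro p ⟨l, hl⟩
  obtain ⟨i, -, rfl⟩ := mem_run.1 hl
  exact Nat.prime_nth_prime _

end Pool.Agent.Results.MP_bbc1fa_nt.InfiniteSetsOfPrimes
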