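import Pool.Agent.Results.MP_bbc1fa_nt.RandomRows
import Pool.Agent.Run7.h469.Ns
import Pool.Agent.Run7.h469.Cnt

/-!
# The four exponentials conjecture for rational numbers: exponents near a generic subspace

Let `V` be a rational vector space of real numbers of dimension at most `m`. The real numbers `y_1, …, y_n` are a generic row over
`V` if `V' = V + ℚ y_1 + ⋯ + ℚ y_n` has dimension `dim V + n` and every `2 × 2` matrix of logarithms of positive algebraic
numbers with first row in `V'`, not in `V`, with ARBITRARY second row, with `ℚ`-linearly independent rows and `ℚ`-linearly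
independent columns, has nonzero determinant. For every `j ≤ n` let `q_{j,1}, …, q_{j,k}` be multiplicatively independent
positive rational numbers, for instance distinct primes, and `r_j > 0` rational. For an integral `n × k` matrix `a` let
`y_j = log r_j + ∑_i a_{j,i} log q_{j,i}`, the logarithm of the rational number `r_j ∏_i q_{j,i}^(a_{j,i})`.

Theorem. There are `k₀` and `δ > 0`, depending only on `n` and `m`, with the following property. Let `k ≥ k₀`, `h ≥ 0` and
`0 ≤ θ < 1`. (1) For all systems `α` of `h` real `n × k` matrices outside a set of Hausdorff dimension at most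
`n k (h - 1) + (n k - δ k + h) / (1 - θ)` (less than `n k h`, if `h + n k θ < δ k`) and all `A`, ALL but finitely many of the
integral matrices `a`, for which the distance of `a` to some point `∑ x_l α_l` of the space spanned by `α` is at most
`A (1 + |x|)^θ`, give a generic row. (2) If `h ≥ 1` and `h + n k θ < δ k`, then for almost all `α` this is true for ALL rational
numbers `q_{j,i}`, `r_j` as above and ALL spaces `V` spanned by the logarithms of `m` positive rational numbers at the same time.

So for almost all real `n × k` matrices `β` and all large integers `v` the rational numbers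
`A_j = ∏_i p_i^⌊v β_{j,i}⌋` (`p_i` arbitrary primes, `h = 1`, `θ = 0`) have the property: if a real number `t` is such that
`A_1^t` and `A_2^t` are rational, then `t` is rational. The dimension `h` of the subspaces can be large, up to `δ k`. As `A` is
arbitrary, the same holds for the integral matrices near the affine subspaces parallel to the given one.

The theorem `RandomRows` of this problem (of our team) shows that for an arbitrary finite set `X` of rational numbers all but
`C |X|^(n k - δ k)` of the matrices with entries in `X` give a generic row. For `X = {-T, …, T}` and fixed `k` this is a power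
saving, by the power `δ k` of `T`, and this power is larger than the dimension `h`. A covering argument
(`Pool.Agent.N251.LF.Tuples` of the starting library, where it is applied to tuples of integers) bounds the dimension of the
exceptional set of `α`. The starting theorem `BestApproximations` of this problem is about the matrices `a` for which `h` linear
forms in their entries are near integers, and `RandomProducts`, where both rows belong to `V'`.
-/

set_option autoImplicit false

namespace Pool.Agent.Results.MP_bbc1fa_nt.NearGenericSubspaces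

open Module MeasureTheory
open Run7.h469.Ns (Near NearSubspaces NearAlmostAll near_rat near_int)
open Pool.Agent.Results.MP_bbc1fa_nt.RandomRows (IsGenericRow)

/-- **Rows of logarithms near generic subspaces.** There are `k₀` and `δ > 0`, depending only on `n` and `m`, such that for
all `k ≥ k₀`, `h` and `0 ≤ θ < 1`: (1) for all `V`, `q` and `r` as in the theorem `RandomRows`, for all systems `α` of `h` real
`n × k` matrices outside a set of dimension at most `n k (h - 1) + (n k - δ k + h) / (1 - θ)`, for all `A`, for all but finitely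
many of the integral matrices `a` within `A (1 + |x|)^θ` of some point `∑ x_l α_l` of the space spanned by `α` the row
`y_j = log r_j + ∑_i a_{j,i} log q_{j,i}` is generic over `V`; (2) if `h ≥ 1` and `h + n k θ < δ k`, then for almost all `α` this
is true for ALL `q` and `r`, and for ALL `V` spanned by the logarithms of `m` positive rational numbers. -/
theorem result (n m : ℕ) (hn : 1 ≤ n) : ∃ (k₀ : ℕ) (δ : ℝ), 0 < δ ∧ ∀ k ≥ k₀, ∀ (h : ℕ) (θ : ℝ), 0 ≤ θ → θ < 1 →
    (∀ V : Submodule ℚ ℝ, Module.Finite ℚ V → finrank ℚ V ≤ m →
      ∀ q : Fin n → Fin k → ℚ, (∀ j i, 0 < q j i) → (∀ j, LinearIndependent ℚ (fun i => Real.log (q j i))) →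
      ∀ r : Fin n → ℚ, (∀ j, 0 < r j) →
      NearSubspaces n k h ((n : ℝ) * k * (h - 1) + (n * k - δ * k + h) / (1 - θ)) θ
        (fun a => IsGenericRow V (fun j => Real.log (r j) + ∑ i, (a j i : ℝ) * Real.log (q j i)))) ∧
    (1 ≤ h → (h : ℝ) + n * k * θ < δ * k → ∀ᵐ α : Fin n × Fin k × Fin h → ℝ,
      ∀ (b : Fin m → ℚ) (q : Fin n → Fin k → ℚ) (r : Fin n → ℚ),
      (∀ j i, 0 < q j i) → (∀ j, LinearIndependent ℚ (fun i => Real.log (q j i))) → (∀ j, 0 < r j) →
      ∀ A : ℝ, {a ∈ Near α A θ | ¬ IsGenericRow (Submodule.span ℚ (Set.range fun i => Real.log (b i)))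
        (fun j => Real.log (r j) + ∑ i, (a j i : ℝ) * Real.log (q j i))}.Finite) := by
  obtain ⟨k₀, C, δ, hδ, hR⟩ := Pool.Agent.Results.MP_bbc1fa_nt.RandomRows.result n m
  refine ⟨max k₀ 1, min δ 1, lt_min hδ one_pos, fun k hk h θ hθ0 hθ => ?_⟩
  have hk1 : 1 ≤ k := (le_max_right _ _).trans hk
  have hk0 : k ≥ k₀ := (le_max_left _ _).trans hk
  have key : ∀ V : Submodule ℚ ℝ, Module.Finite ℚ V → finrank ℚ V ≤ m →
      ∀ q : Fin n → Fin k → ℚ, (∀ j i, 0 < q j i) → (∀ j, LinearIndependent ℚ (fun i => Real.log (q j i))) →
      ∀ r : Fin n → ℚ, (∀ j, 0 < r j) →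
      NearSubspaces n k h ((n : ℝ) * k * (h - 1) + (n * k - min δ 1 * k + h) / (1 - θ)) θ
        (fun a => IsGenericRow V (fun j => Real.log (r j) + ∑ i, (a j i : ℝ) * Real.log (q j i))) ∧
      (1 ≤ h → (h : ℝ) + n * k * θ < min δ 1 * k → NearAlmostAll n k h θ
        (fun a => IsGenericRow V (fun j => Real.log (r j) + ∑ i, (a j i : ℝ) * Real.log (q j i)))) := by
    intro V hV hVm q hq hli r hr
    have h1 := near_rat h hn hk1
      (fun a => IsGenericRow V (fun j => Real.log (r j) + ∑ i, (a j i : ℝ) * Real.log (q j i))) (Nat.cast_nonneg C)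
      (fun X hX => by
        refine le_of_eq_of_le ?_ (hR V hV hVm k hk0 q hq hli r hr X hX)
        congr!) hθ0 hθ
    simpa only [Rat.cast_intCast] using h1
  refine ⟨fun V hV hVm q hq hli r hr => (key V hV hVm q hq hli r hr).1, fun hh hlt => ?_⟩
  have hae : ∀ᵐ α : Fin n × Fin k × Fin h → ℝ, ∀ t : (Fin m → ℚ) × (Fin n → Fin k → ℚ) × (Fin n → ℚ),
      (∀ j i, 0 < t.2.1 j i) → (∀ j, LinearIndependent ℚ (fun i => Real.log (t.2.1 j i))) → (∀ j, 0 < t.2.2 j) →
      ∀ A : ℝ, {a ∈ Near α A θ | ¬ IsGenericRow (Submodule.span ℚ (Set.range fun i => Real.log (t.1 i)))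
        (fun j => Real.log (t.2.2 j) + ∑ i, (a j i : ℝ) * Real.log (t.2.1 j i))}.Finite := by
    rw [ae_all_iff]
    rintro ⟨b, q, r⟩
    by_cases hli : (∀ j i, 0 < q j i) ∧ (∀ j, LinearIndependent ℚ (fun i => Real.log (q j i))) ∧ ∀ j, 0 < r j
    · obtain ⟨-, h2⟩ := key (Submodule.span ℚ (Set.range fun i => Real.log (b i)))
        (Module.Finite.span_of_finite ℚ (Set.finite_range _)) ((finrank_range_le_card _).trans (by simp)) q
        hli.1 hli.2.1 r hli.2.2
      filter_upwards [h2 hh hlt] with α hα _ _ _
      exact hα
    · exact Filter.Eventually.of_forall fun α h3 h4 h5 => absurd ⟨h3, h4, h5⟩ hli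
  filter_upwards [hae] with α hα b q r hq hli hr A
  exact hα (b, q, r) hq hli hr A

end Pool.Agent.Results.MP_bbc1fa_nt.NearGenericSubspaces
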