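import Pool.Agent.Results.MP_bbc1fa_nt.AlmostAllTuples
import Pool.Agent.Run7.h95.NP.Main

/-!
# Four exponentials for the groups generated by all integers near products of linear forms

Let `x_1, …, x_k` be distinct rational numbers, `a < b` with `a + x_i > 0`, `n ≥ 1`, `A ≥ 0` and `β > 1 - 1 / (3 ^ (k n) + 1)`.
There is `B` such that for all `θ, R ≥ 0`, `h ≥ 1` and `0 ≤ σ ≤ 1` with `σ < h (1 - β - (n + 1) θ)` the following is true for
all integer vectors `v` in `[-X, X]^D` with at most `C Q^((n + 1) h (D + 2)) X^(D - σ)` exceptions, `C` depending on `D`, and for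
ALL vectors `t` of `n + 1` products of `h` linear forms, `t_l = ∏_(i ≤ h) y_(l,i)` with `y = M v + z`, `M` an integral matrix of
rank `(n + 1) h`, `z` an integral vector, the entries of `M` and `z` at most `Q`, all `y_(l,i) ≠ 0`: for ALL natural numbers `N`
and ALL integers `u_1, …, u_n` in `[a N, b N]` with `|N - |t_0||` and `||u_j| - |t_j||` at most `R |t| ^ θ`, EVERY `2 × 2` matrix
`(log α_ij)` with `α_ij` in the group generated by `N` and the `u_j + x_i N` (exponents at most `N ^ A`), with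
`ℚ`-linearly independent rows and `ℚ`-linearly independent columns, has a determinant of absolute value larger than
`N ^ (-B)`; in particular it is not zero. Here `Q` can be a small power of `X`. We prove a similar result for the integer vectors near `N_n α`, `N_n` a lacunary sequence
(for instance the truncations of the expansions in base `g`, `N_n = g^n`), for all real vectors `α` outside a set of dimension
less than `D`, and `M`, `z` with entries up to a power of `N_n`.

The starting theorem `AlmostAllTuples` bounds, for each `N`, the number of the exceptional tuples `u` by `C N^(n - 1 + β)`. The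
products of `h` integers form a set of density zero, and so the result for `h ≥ 2` does not follow from this number alone: the
divisor bound shows that few vectors `y` have products near `N` and the `u_j` for an exceptional tuple `(N, u)`, and for each of
the possible `M`, `z` the map `v ↦ M v + z` has small fibres (engine of helper469, `Run7/h469/Vm`, here extended to windows).
-/

set_option autoImplicit false

namespace Pool.Agent.Results.MP_bbc1fa_nt.ProductsOfLinearForms

open Finset MeasureTheory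
open AlmostAllTuples (Exceptional)
open Run7.h469.Vk (Hits Lacunary Generic Avoids)
open Run7.h469.Vm (ProductIn)

/-- The integer vectors `(t_0, …, t_n)` for which there are a natural number `N ≥ 1` and an exceptional tuple `u` for `N` (a
tuple of integers in `[a N, b N]` with a `2 × 2` matrix `(log α_ij)`, `α_ij` in the group generated by `N` and the
`u_j + x_i N` with exponents at most `N ^ A`, with `ℚ`-linearly independent rows and columns and a determinant of absolute value
at most `N ^ (-B)`) such that `|N - |t_0||` and the `||u_j| - |t_j||` are at most `R ‖t‖ ^ θ`. -/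
def Bad {k : ℕ} (n : ℕ) (x : Fin k → ℚ) (a b A B R θ : ℝ) : Set (Fin (n + 1) → ℤ) :=
  {t | ∃ (N : ℕ) (u : Fin n → ℤ), 1 ≤ N ∧ u ∈ Exceptional n x a b A B N ∧
    |(N : ℝ) - (|(t 0 : ℝ)|)| ≤ R * ‖fun i => (t i : ℝ)‖ ^ θ ∧
    ∀ j : Fin n, |(|(u j : ℝ)|) - (|(t j.succ : ℝ)|)| ≤ R * ‖fun i => (t i : ℝ)‖ ^ θ}

lemma count_pairs {n : ℕ} {E : ℕ → Set (Fin n → ℤ)} {C s : ℝ} (hs : 0 ≤ s)
    (h : ∀ N : ℕ, 1 ≤ N → (E N).Finite ∧ ((E N).ncard : ℝ) ≤ C * (N : ℝ) ^ s) {X : ℝ} (hX : 1 ≤ X)
    (F : Finset (ℕ × (Fin n → ℤ))) (hF : ∀ p ∈ F, (1 ≤ p.1 ∧ p.2 ∈ E p.1) ∧ (p.1 : ℝ) ≤ X) :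
    (F.card : ℝ) ≤ |C| * X ^ (s + 1) := by
  classical
  have hX0 : 0 < X := by linarith
  have hfib : ∀ N ∈ F.image Prod.fst, (((F.filter (fun p => p.1 = N)).card : ℕ) : ℝ) ≤ |C| * X ^ s := by
    intro N hN
    rw [mem_image] at hN
    obtain ⟨p, hp, rfl⟩ := hN
    obtain ⟨⟨h1, -⟩, h2⟩ := hF p hp
    obtain ⟨f1, f2⟩ := h p.1 h1
    have h3 : ((F.filter (fun q => q.1 = p.1)).image Prod.snd).card = (F.filter (fun q => q.1 = p.1)).card := by
      apply card_image_of_injOn
      intro q hq r hr hqr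
      rw [mem_coe, mem_filter] at hq hr
      exact Prod.ext (hq.2.trans hr.2.symm) hqr
    have h4 : (((F.filter (fun q => q.1 = p.1)).image Prod.snd : Finset (Fin n → ℤ)) : Set (Fin n → ℤ)) ⊆ E p.1 := by
      intro u hu
      rw [mem_coe, mem_image] at hu
      obtain ⟨q, hq, rfl⟩ := hu
      rw [mem_filter] at hq
      have := (hF q hq.1).1.2
      rwa [hq.2] at this
    have h5 := Set.ncard_le_ncard h4 f1
    rw [Set.ncard_coe_finset, h3] at h5
    calc (((F.filter (fun q => q.1 = p.1)).card : ℕ) : ℝ) ≤ ((E p.1).ncard : ℝ) := by exact_mod_cast h5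
      _ ≤ C * (p.1 : ℝ) ^ s := f2
      _ ≤ |C| * X ^ s := mul_le_mul (le_abs_self C) (Real.rpow_le_rpow (Nat.cast_nonneg _) h2 hs) (by positivity)
          (abs_nonneg C)
  have hI : ((F.image Prod.fst).card : ℝ) ≤ X := by
    have h1 : F.image Prod.fst ⊆ Icc 1 ⌊X⌋₊ := by
      intro N hN
      rw [mem_image] at hN
      obtain ⟨p, hp, rfl⟩ := hN
      rw [mem_Icc]
      exact ⟨(hF p hp).1.1, Nat.le_floor (hF p hp).2⟩
    have h2 := card_le_card h1
    rw [Nat.card_Icc, Nat.add_sub_cancel] at h2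
    calc ((F.image Prod.fst).card : ℝ) ≤ (⌊X⌋₊ : ℝ) := by exact_mod_cast h2
      _ ≤ X := Nat.floor_le hX0.le
  have hcard : (F.card : ℝ) = ∑ N ∈ F.image Prod.fst, (((F.filter (fun p => p.1 = N)).card : ℕ) : ℝ) := by
    exact_mod_cast card_eq_sum_card_image Prod.fst F
  calc (F.card : ℝ) = _ := hcard
    _ ≤ ∑ _N ∈ F.image Prod.fst, |C| * X ^ s := sum_le_sum hfib
    _ = ((F.image Prod.fst).card : ℝ) * (|C| * X ^ s) := by rw [sum_const, nsmul_eq_mul]
    _ ≤ X * (|C| * X ^ s) := mul_le_mul_of_nonneg_right hI (by positivity)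
    _ = |C| * X ^ (s + 1) := by rw [Real.rpow_add hX0, Real.rpow_one]; ring

/-- **Theorem.** Let `x_1, …, x_k` be distinct rational numbers, `a < b` with `a + x_i > 0`, `n ≥ 1`, `A ≥ 0` and
`β > 1 - 1 / (3 ^ (k n) + 1)`. There is `B` such that for all `h ≥ 1`, `θ, R ≥ 0`, `0 ≤ σ ≤ 1`,
`σ < h (1 - β - (n + 1) θ)`:
(1) there is `C` such that for all `D` and `X, Q ≥ 1`, for all but
`C ((D + 1)^((n + 1) h) 3^(((n + 1) h + 1) (D + 1))) Q^((n + 1) h (D + 2)) X^(D - σ)` of the integer vectors `v` in `[-X, X]^D` no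
vector `t` of `n + 1` products `t_l = ∏_(i ≤ h) y_(l,i)` of nonzero coordinates of a vector `y = M v + z`, `M` integral of rank
`(n + 1) h`, with entries of `M` and `z` at most `Q`, is in `Bad`: for ALL `N` and all `u` in `[a N, b N]^n` near `t` the four
exponentials conjecture holds, with the measure `N ^ (-B)`, for the group generated by `N` and the `u_j + x_i N`; (2) for
lacunary `N_i` and `κ ≥ 0`, outside a set of `α` in `ℝ^D` of dimension at most `D - σ + (n + 1) h (D + 2) κ` (and almost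
everywhere for measures of larger dimension), for all `A'`, for all large `i` the same is true for the integer vectors `v` with
`|v - N_i α| ≤ A'` and `M`, `z` with entries at most `A' N_i^κ`; (3) in particular it is true for almost all `α`, if
`(n + 1) h (D + 2) κ < σ`. -/
theorem result (n k : ℕ) (hn : 1 ≤ n) (x : Fin k → ℚ) (hx : Function.Injective x) (a b : ℝ) (hab : a < b)
    (hpos : ∀ i, 0 < a + x i) (A β : ℝ) (hA : 0 ≤ A) (hβ : 1 - 1 / ((3 : ℝ) ^ (k * n) + 1) < β) :
    ∃ B : ℝ, ∀ h : ℕ, 1 ≤ h → ∀ θ R σ : ℝ, 0 ≤ θ → 0 ≤ R → 0 ≤ σ → σ ≤ 1 → σ < h * (1 - β - (n + 1) * θ) →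
      (∃ C : ℝ, ∀ D X Q : ℕ, 1 ≤ X → 1 ≤ Q →
        (({v : Fin D → ℤ | (∀ j, |v j| ≤ X) ∧ v ∈ Hits (ProductIn h (Bad n x a b A B R θ)) D Q}.ncard : ℕ) : ℝ) ≤
          C * (((D : ℝ) + 1) ^ ((n + 1) * h) * 3 ^ (((n + 1) * h + 1) * (D + 1))) * (Q : ℝ) ^ ((n + 1) * h * (D + 2)) *
            (X : ℝ) ^ ((D : ℝ) - σ)) ∧
      (∀ D : ℕ, 1 ≤ D → ∀ N : ℕ → ℝ, Lacunary N → ∀ κ : ℝ, 0 ≤ κ →
        Generic ((D : ℝ) - σ + (n + 1) * h * (D + 2) * κ)
          (fun α : Fin D → ℝ => Avoids (ProductIn h (Bad n x a b A B R θ)) N κ α)) ∧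
      ∀ D : ℕ, 1 ≤ D → ∀ N : ℕ → ℝ, Lacunary N → ∀ κ : ℝ, 0 ≤ κ → (n + 1) * h * (D + 2) * κ < σ →
        ∀ᵐ α : Fin D → ℝ, Avoids (ProductIn h (Bad n x a b A B R θ)) N κ α := by
  obtain ⟨B, C, hB⟩ := AlmostAllTuples.result n k hn x hx a b hab hpos A β hA hβ
  have hn1 : (1 : ℝ) ≤ n := by exact_mod_cast hn
  have hβ0 : 0 < β := by
    have h1 : (0 : ℝ) < (3 : ℝ) ^ (k * n) := by positivity
    have h2 : 1 / ((3 : ℝ) ^ (k * n) + 1) < 1 := by
      rw [div_lt_iff₀ (by linarith)]
      linarith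
    linarith
  refine ⟨B, fun h hh θ R σ hθ hR hσ hσ1 hσh => ?_⟩
  have hh1 : (1 : ℝ) ≤ h := by exact_mod_cast hh
  have hθ1 : θ ≤ 1 := by
    by_contra hcon
    push Not at hcon
    have h1 : 1 - β - ((n : ℝ) + 1) * θ ≤ 0 := by nlinarith
    have : (h : ℝ) * (1 - β - (n + 1) * θ) ≤ 0 := mul_nonpos_of_nonneg_of_nonpos (by linarith) h1
    linarith
  obtain ⟨C', -, key⟩ := Run7.h95.NP.near_products (k := n + 1) (b := h) (by omega) hh (s := (n : ℝ) - 1 + β + 1)
    (θ := θ) (A := R) (C := |C|) (c' := σ) hθ hθ1 hR (abs_nonneg C) hσ hσ1 (by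
      push_cast
      have e : (n : ℝ) + 1 - (n - 1 + β + 1) - (n + 1) * θ = 1 - β - (n + 1) * θ := by ring
      rw [e]
      exact hσh)
  have h1 := key (ℕ × (Fin n → ℤ)) (fun p => 1 ≤ p.1 ∧ p.2 ∈ Exceptional n x a b A B p.1)
    (fun p => Fin.cons (p.1 : ℝ) (fun j => |(p.2 j : ℝ)|)) (Bad n x a b A B R θ) (by
      intro X hX F hF
      refine count_pairs (by linarith) hB hX F fun p hp => ⟨(hF p hp).1, ?_⟩
      have := (hF p hp).2 0
      rwa [Fin.cons_zero] at this) (by
      intro t ht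
      obtain ⟨N, u, h1, h2, h3, h4⟩ := ht
      refine ⟨(N, u), ⟨h1, h2⟩, fun j => ?_⟩
      refine Fin.cases ?_ (fun i => ?_) j
      · rw [Fin.cons_zero]
        exact h3
      · rw [Fin.cons_succ]
        exact h4 i)
  push_cast at h1
  exact ⟨⟨C', h1.1⟩, h1.2⟩

end Pool.Agent.Results.MP_bbc1fa_nt.ProductsOfLinearForms
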