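import Pool.Agent.Run7.h788.RandTwo
import Pool.Agent.R350.GU
import Pool.Agent.R350.GV

/-!
# The four exponentials conjecture for rational numbers: random first row, arbitrary second row

Let `V` be a rational vector space of real numbers of dimension at most `m`.  We say that the real numbers
`y_1, …, y_n` are a generic row over `V` if `V' = V + ℚ y_1 + ⋯ + ℚ y_n` has dimension `dim V + n` and
every `2 × 2` matrix of logarithms of positive rational (or algebraic) numbers with first row in `V'`,
not in `V`, with ARBITRARY second row, with `ℚ`-linearly independent rows and `ℚ`-linearly independent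
columns, has nonzero determinant.

For every `j ≤ n` let `q_{j,1}, …, q_{j,k}` be multiplicatively independent positive rational numbers,
for instance distinct primes (for different `j` they may be the same), and let `r_j > 0` be a rational
number.  Let `X` be a finite nonempty set of rational numbers, for instance `{0, 1}`.  Then, for
`k ≥ k₀`, the row of the logarithms

  `y_j = log r_j + ∑_i a_{j,i} log q_{j,i}`  (`j = 1, …, n`)

(for integral `a_{j,i}`: of the logarithms of the rational numbers `r_j ∏_i q_{j,i} ^ a_{j,i}`) is a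
generic row over `V` for all but `C |X| ^ (n k - δ k)` of the `|X| ^ (n k)` matrices `a` with entries in
`X`.  The constants `k₀`, `C` and `δ > 0` depend only on `n` and `m`, and not on `V`, `q`, `r` and `X`.

So for given multiplicatively independent rational numbers `q_1, …, q_k` the following holds for all but
exponentially few pairs `(A, B)` of subsets of `{1, …, k}`: if `a = ∏_{i ∈ A} q_i`, `b = ∏_{i ∈ B} q_i`
and if `a ^ t` and `b ^ t` are rational for a real number `t`, then `t` is rational.

In the starting results of this problem both rows belong to `V'` (`RandomProducts`, with exponentially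
few exceptions), or the first row consists of logarithms of integers up to `x` and the second row is
arbitrary, with the saving `(log log x) ^ C / log x` (`GenericRow`).

The proof.  By the hyperplane case of the linear subgroup theorem of Waldschmidt and Roy every cube in
sufficiently many linearly independent directions contains a point which is generic over the stage
before (`Pool.Agent.R350`).  So the exceptional parameters contain no nondegenerate cube, and an iterated
Cauchy-Schwarz inequality (`Pool.Agent.Y918.OL.cube_count`) shows that they are exponentially rare.  The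
counting over the stages is in `Pool.Agent.Run7.h788.RandTwo`.
-/

set_option autoImplicit false

namespace Pool.Agent.Results.MP_bbc1fa_nt.RandomRows

open Module

/-- the four exponentials conjecture holds for all matrices of logarithms of positive algebraic
numbers with first row in `V + ℚ y_1 + ⋯ + ℚ y_k` and not in `V`, and arbitrary second row -/
def IsGenericRow (V : Submodule ℚ ℝ) {k : ℕ} (y : Fin k → ℝ) : Prop :=
  finrank ℚ (V ⊔ Submodule.span ℚ (Set.range y) : Submodule ℚ ℝ) = finrank ℚ V + k ∧
  ∀ M : Matrix (Fin 2) (Fin 2) ℝ, (∀ i j, IsAlgebraic ℚ (Real.exp (M i j))) →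
    (∀ j, M 0 j ∈ V ⊔ Submodule.span ℚ (Set.range y)) →
    (∃ j, M 0 j ∉ V) →
    LinearIndependent ℚ (fun i : Fin 2 => fun j : Fin 2 => M i j) →
    LinearIndependent ℚ (fun j : Fin 2 => fun i : Fin 2 => M i j) →
    M.det ≠ 0

/-- the embedding of the reals -/
noncomputable def φ : ℝ →ₗ[ℚ] ℂ := (Complex.ofRealAm.toLinearMap).restrictScalars ℚ

theorem φ_apply (r : ℝ) : φ r = (r : ℂ) := rfl

theorem φ_inj : Function.Injective φ := fun a b h => by
  rw [φ_apply, φ_apply] at h
  exact_mod_cast h

theorem finrank_map (W : Submodule ℚ ℝ) : finrank ℚ (W.map φ) = finrank ℚ W :=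
  (Submodule.equivMapOfInjective φ φ_inj W).finrank_eq.symm

theorem genericRow_of_good2f (V : Submodule ℚ ℝ) {k : ℕ} (y : Fin k → ℝ)
    (h : Pool.Agent.R350.Good2f (V.map φ) Pool.Agent.H301R2.SSE.Lt (fun i => (y i : ℂ))) :
    IsGenericRow V y := by
  have hmap : (V ⊔ Submodule.span ℚ (Set.range y)).map φ =
      V.map φ ⊔ Submodule.span ℚ (Set.range fun i => (y i : ℂ)) := by
    rw [Submodule.map_sup, Submodule.map_span, ← Set.range_comp]
    rfl
  have hg1 := h.1
  rw [← hmap, finrank_map, finrank_map] at hg1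
  refine ⟨hg1, fun M hMalg hM0 hV hrow hcol hdet => ?_⟩
  have hdet' : M 0 0 * M 1 1 = M 0 1 * M 1 0 := by
    rw [Matrix.det_fin_two] at hdet
    linear_combination hdet
  have halg : ∀ i j, IsAlgebraic ℚ (Complex.exp (M i j : ℂ)) := fun i j => by
    rw [← Complex.ofReal_exp]
    exact (hMalg i j).algebraMap
  have hli : LinearIndependent ℚ (fun j : Fin 2 => (M 0 j : ℂ)) :=
    (Pool.Agent.R350.row_li M hdet' hrow hcol).map' φ (LinearMap.ker_eq_bot.2 φ_inj)
  rcases h.2 (fun j => (M 0 j : ℂ)) (fun j => (M 1 j : ℂ)) (fun j => by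
    rw [← hmap]
    exact Submodule.mem_map_of_mem (hM0 j)) (fun j => Submodule.mem_sup_left
      (Pool.Agent.H301R2.SSE.Lt_log (halg 1 j))) (by exact_mod_cast hdet') hli
    with ⟨ρ, hρ⟩ | h
  · have hM00 : (M 0 0 : ℂ) ≠ 0 := hli.ne_zero 0
    obtain ⟨q, hq⟩ := Pool.Agent.R350.ratio_rat (ρ := (ρ : ℂ)) (halg 0 0) (halg 1 0)
      (Pool.Agent.H301R2.SSE.mem_QB.1 ρ.2) hM00 (hρ 0)
    have h1 := Fintype.linearIndependent_iff.1 hrow ![q, -1] (by
      rw [Fin.sum_univ_two]
      funext j
      simp only [Matrix.cons_val_zero, Matrix.cons_val_one, Pi.add_apply, Pi.smul_apply,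
        Pi.zero_apply]
      have h2 : (M 1 j : ℂ) = (ρ : ℂ) * M 0 j := hρ j
      rw [hq] at h2
      have h3 : M 1 j = q * M 0 j := by exact_mod_cast h2
      rw [h3, neg_smul, one_smul, Rat.smul_def]
      ring) 1
    simp at h1
  · obtain ⟨j, hj⟩ := hV
    apply hj
    obtain ⟨w, hw, h1⟩ := Submodule.mem_map.1 (h j)
    rw [φ_inj h1] at hw
    exact hw

open Classical in
/-- **Main result.** -/
theorem result (n m : ℕ) : ∃ (k₀ C : ℕ) (δ : ℝ), 0 < δ ∧
    ∀ V : Submodule ℚ ℝ, Module.Finite ℚ V → finrank ℚ V ≤ m →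
    ∀ k ≥ k₀, ∀ q : Fin n → Fin k → ℚ, (∀ j i, 0 < q j i) →
    (∀ j, LinearIndependent ℚ (fun i => Real.log (q j i))) →
    ∀ r : Fin n → ℚ, (∀ j, 0 < r j) → ∀ X : Finset ℚ, X.Nonempty →
    (((Fintype.piFinset fun _ : Fin n => Fintype.piFinset fun _ : Fin k => X).filter fun a =>
      ¬ IsGenericRow V (fun j => Real.log (r j) + ∑ i, (a j i : ℝ) * Real.log (q j i))).card : ℝ) ≤
      C * (X.card : ℝ) ^ ((n * k : ℝ) - δ * k) := by
  obtain ⟨k₀, C, δ, hδ, h⟩ := Run7.h788.rand_two n m 0
  refine ⟨k₀, C, δ, hδ, fun V hVf hVm k hk q hq hli r hr X hX => ?_⟩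
  have hS := Pool.Agent.R350.setup_complex
  have hVf' : Module.Finite ℚ (V.map φ) := Module.Finite.map V φ
  have halg : ∀ s : ℚ, 0 < s → IsAlgebraic ℚ (Complex.exp ((Real.log s : ℝ) : ℂ)) := fun s hs => by
    rw [← Complex.ofReal_exp, Real.exp_log (by exact_mod_cast hs), Complex.ofReal_ratCast]
    exact isAlgebraic_algebraMap (R := ℚ) (A := ℂ) s
  have hlic : ∀ j, LinearIndependent ℚ (fun i => ((Real.log (q j i) : ℝ) : ℂ)) := fun j =>
    (hli j).map' φ (LinearMap.ker_eq_bot.2 φ_inj)
  have h5 := h k hk ℚ (algebraicClosure ℚ ℂ) ℂ Pool.Agent.H301R2.SSE.Lt hS.hyp hS.one (V.map φ)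
    hVf' (by rw [finrank_map]; exact hVm) (fun j i => ((Real.log (q j i) : ℝ) : ℂ))
    (fun j i => Submodule.mem_sup_left (Pool.Agent.H301R2.SSE.Lt_log (halg _ (hq j i))))
    (fun j => Pool.Agent.R350.li_complex _ (fun i => halg _ (hq j i)) (hlic j)) X hX
    (fun j => ((Real.log (r j) : ℝ) : ℂ))
    (fun j => Submodule.mem_sup_left (Pool.Agent.H301R2.SSE.Lt_log (halg _ (hr j))))
  refine le_trans (Nat.cast_le.2 (Finset.card_le_card ?_)) h5
  intro a ha
  rw [Finset.mem_filter] at ha ⊢
  refine ⟨ha.1, fun hgood => ha.2 (genericRow_of_good2f V _ ?_)⟩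
  have he : (fun j => ((Real.log (r j) + ∑ i, (a j i : ℝ) * Real.log (q j i) : ℝ) : ℂ)) =
      fun j => ((Real.log (r j) : ℝ) : ℂ) + ∑ i, (a j i : ℂ) * ((Real.log (q j i) : ℝ) : ℂ) := by
    funext j
    push_cast
    rfl
  rw [he]
  exact hgood

end Pool.Agent.Results.MP_bbc1fa_nt.RandomRows
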